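import Pool.Agent.MVO.StmtsL

/-!
MVO, row OAA: over `O1` the type is (degree, support).
-/

set_option autoImplicit false

namespace Pool.Agent.MVO.H77

theorem psh_two (p q x y : ℕ) (j : ℕ) :
    psh 1 (fun i => if i = 0 then p else q) (v2 x y) j
      = (if p = j then x else 0) + (if q = j then y else 0) := by
  unfold psh
  rw [Finset.sum_range_succ, Finset.sum_range_succ, Finset.sum_range_zero]
  simp [v2]

theorem bmap_two {p q k : ℕ} (h : p ≤ q) (hq : q ≤ k) :
    BMap 1 k (fun i => if i = 0 then p else q) := by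
  refine ⟨fun i j hij _ => ?_, fun i _ => ?_⟩
  · show (if i = 0 then p else q) ≤ (if j = 0 then p else q)
    by_cases hi : i = 0
    · by_cases hj : j = 0
      · rw [if_pos hi, if_pos hj]
      · rw [if_pos hi, if_neg hj]
        exact h
    · rw [if_neg hi, if_neg (by omega)]
  · show (if i = 0 then p else q) ≤ k
    by_cases hi : i = 0
    · rw [if_pos hi]
      omega
    · rw [if_neg hi]
      exact hq

theorem move (R : FC) (h1 : O1 R) {k : ℕ} {a : ℕ → ℕ} {p q : ℕ} (hp : p ≤ k) (hq : q ≤ k)
    (hpq : p ≠ q) (ha : 2 ≤ a p) (hb : 1 ≤ a q) :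
    R.R k a (fun j => if j = p then a p - 1 else if j = q then a q + 1 else a j) := by
  rcases lt_or_gt_of_ne hpq with h | h
  · have h2 := R.add (fun j => if j = p then a p - 2 else if j = q then a q - 1 else a j)
      (R.push k _ (bmap_two h.le hq) h1)
    refine R.ext ?_ ?_ h2
    · intro j _
      rw [psh_two]
      by_cases hjp : j = p
      · subst hjp
        rw [if_pos rfl, if_pos rfl, if_neg hpq.symm]
        omega
      · by_cases hjq : j = q
        · subst hjq
          rw [if_neg hpq, if_pos rfl, if_neg hjp, if_pos rfl]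
          omega
        · rw [if_neg (Ne.symm hjp), if_neg (Ne.symm hjq), if_neg hjp, if_neg hjq]
          omega
    · intro j _
      rw [psh_two]
      by_cases hjp : j = p
      · subst hjp
        rw [if_pos rfl, if_pos rfl, if_neg hpq.symm, if_pos rfl]
        omega
      · by_cases hjq : j = q
        · subst hjq
          rw [if_neg hpq, if_pos rfl, if_neg hjp, if_pos rfl, if_neg hjp, if_pos rfl]
          omega
        · rw [if_neg (Ne.symm hjp), if_neg (Ne.symm hjq), if_neg hjp, if_neg hjq, if_neg hjp,
            if_neg hjq]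
          omega
  · have h2 := R.add (fun j => if j = p then a p - 2 else if j = q then a q - 1 else a j)
      (R.push k _ (bmap_two h.le hp) (R.symm h1))
    refine R.ext ?_ ?_ h2
    · intro j _
      rw [psh_two]
      by_cases hjp : j = p
      · subst hjp
        rw [if_pos rfl, if_pos rfl, if_neg hpq.symm]
        omega
      · by_cases hjq : j = q
        · subst hjq
          rw [if_neg hpq, if_pos rfl, if_neg hjp, if_pos rfl]
          omega
        · rw [if_neg (Ne.symm hjp), if_neg (Ne.symm hjq), if_neg hjp, if_neg hjq]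
          omega
    · intro j _
      rw [psh_two]
      by_cases hjp : j = p
      · subst hjp
        rw [if_pos rfl, if_pos rfl, if_neg hpq.symm, if_pos rfl]
        omega
      · by_cases hjq : j = q
        · subst hjq
          rw [if_neg hpq, if_pos rfl, if_neg hjp, if_pos rfl, if_neg hjp, if_pos rfl]
          omega
        · rw [if_neg (Ne.symm hjp), if_neg (Ne.symm hjq), if_neg hjp, if_neg hjq, if_neg hjp,
            if_neg hjq]
          omega

theorem mem_sp {k : ℕ} {a : ℕ → ℕ} {j : ℕ} : j ∈ sp k a ↔ j ≤ k ∧ a j ≠ 0 := by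
  unfold sp
  rw [Finset.mem_filter, Finset.mem_range, Nat.lt_succ_iff]

theorem sum_move (k : ℕ) (a : ℕ → ℕ) {p q : ℕ} (hp : p ≤ k) (hq : q ≤ k)
    (hpq : p ≠ q) (ha : 1 ≤ a p) :
    ∑ j ∈ Finset.range (k + 1), (if j = p then a p - 1 else if j = q then a q + 1 else a j)
      = ∑ j ∈ Finset.range (k + 1), a j := by
  have mp : p ∈ Finset.range (k + 1) := Finset.mem_range.2 (by omega)
  have mq : q ∈ (Finset.range (k + 1)).erase p :=
    Finset.mem_erase.2 ⟨hpq.symm, Finset.mem_range.2 (by omega)⟩
  rw [← Finset.add_sum_erase _ _ mp, ← Finset.add_sum_erase _ _ mq,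
    ← Finset.add_sum_erase _ a mp, ← Finset.add_sum_erase _ a mq]
  rw [if_pos rfl, if_neg hpq.symm, if_pos rfl]
  have h3 : ∑ j ∈ ((Finset.range (k + 1)).erase p).erase q,
      (if j = p then a p - 1 else if j = q then a q + 1 else a j)
      = ∑ j ∈ ((Finset.range (k + 1)).erase p).erase q, a j := by
    refine Finset.sum_congr rfl fun j hj => ?_
    rw [Finset.mem_erase, Finset.mem_erase] at hj
    rw [if_neg hj.2.1, if_neg hj.1]
  rw [h3]
  omega

theorem exists_pq {k : ℕ} {a b : ℕ → ℕ} (hd : deg k a = deg k b) (hs : sp k a = sp k b) :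
    (∀ j ≤ k, a j = b j) ∨ ∃ p q, p ≤ k ∧ q ≤ k ∧ p ≠ q ∧ b p < a p ∧ a q < b q ∧ 2 ≤ a p ∧
      1 ≤ a q := by
  unfold deg at hd
  by_cases h : ∀ j ∈ Finset.range (k + 1), a j ≤ b j
  · left
    intro j hj
    exact (Finset.sum_eq_sum_iff_of_le h).1 hd j (Finset.mem_range.2 (by omega))
  · right
    have h2 : ∃ p, p ≤ k ∧ b p < a p := by
      by_contra hc
      apply h
      intro j hj
      by_contra hlt
      exact hc ⟨j, by rw [Finset.mem_range] at hj; omega, by omega⟩
    obtain ⟨p, hp, hpb⟩ := h2
    have h3 : ∃ q, q ≤ k ∧ a q < b q := by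
      by_contra hc
      have hlt : ∑ j ∈ Finset.range (k + 1), b j < ∑ j ∈ Finset.range (k + 1), a j := by
        refine Finset.sum_lt_sum (fun j hj => ?_) ⟨p, Finset.mem_range.2 (by omega), hpb⟩
        by_contra hlt
        exact hc ⟨j, by rw [Finset.mem_range] at hj; omega, by omega⟩
      omega
    obtain ⟨q, hq, hqb⟩ := h3
    have m1 : p ∈ sp k a := mem_sp.2 ⟨hp, by omega⟩
    have m2 : q ∈ sp k b := mem_sp.2 ⟨hq, by omega⟩
    rw [hs, mem_sp] at m1
    rw [← hs, mem_sp] at m2
    refine ⟨p, q, hp, hq, ?_, hpb, hqb, by omega, by omega⟩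
    intro hpq
    subst hpq
    omega

theorem oaa_aux (R : FC) (h1 : O1 R) (k : ℕ) (b : ℕ → ℕ) : ∀ (M : ℕ) (a : ℕ → ℕ),
    ∑ j ∈ Finset.range (k + 1), (a j - b j) ≤ M → deg k a = deg k b → sp k a = sp k b →
    R.R k a b := by
  intro M
  induction M with
  | zero =>
    intro a hM hd hs
    rcases exists_pq hd hs with h | ⟨p, q, hp, _, _, hpb, _⟩
    · exact R.ext (fun j _ => rfl) h (R.refl k a)
    · exfalso
      have h2 := Finset.single_le_sum (f := fun j => a j - b j) (fun j _ => Nat.zero_le _)
        (Finset.mem_range.2 (show p < k + 1 by omega))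
      have h3 : a p - b p ≤ 0 := h2.trans hM
      omega
  | succ M ih =>
    intro a hM hd hs
    rcases exists_pq hd hs with h | ⟨p, q, hp, hq, hpq, hpb, hqb, ha2, hq1⟩
    · exact R.ext (fun j _ => rfl) h (R.refl k a)
    · refine R.trans (move R h1 hp hq hpq ha2 hq1) (ih _ ?_ ?_ ?_)
      · have hlt : ∑ j ∈ Finset.range (k + 1),
            ((if j = p then a p - 1 else if j = q then a q + 1 else a j) - b j)
            < ∑ j ∈ Finset.range (k + 1), (a j - b j) := by
          refine Finset.sum_lt_sum (fun j _ => ?_) ⟨p, Finset.mem_range.2 (by omega), ?_⟩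
          · by_cases hjp : j = p
            · subst hjp
              rw [if_pos rfl]
              omega
            · by_cases hjq : j = q
              · subst hjq
                rw [if_neg hjp, if_pos rfl]
                omega
              · rw [if_neg hjp, if_neg hjq]
          · rw [if_pos rfl]
            omega
        omega
      · rw [← hd]
        exact sum_move k a hp hq hpq (by omega)
      · rw [← hs]
        ext j
        rw [mem_sp, mem_sp]
        by_cases hjp : j = p
        · subst hjp
          rw [if_pos rfl]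
          omega
        · by_cases hjq : j = q
          · subst hjq
            rw [if_neg hjp, if_pos rfl]
            omega
          · rw [if_neg hjp, if_neg hjq]

theorem oaa : OaaStmt := by
  intro R k a b h hd hs
  rcases h with h | h
  · exact oaa_aux R h k b _ a le_rfl hd hs
  · rcases exists_pq hd hs with h2 | ⟨p, q, hp, hq, hpq, hpb, hqb, ha2, hq1⟩
    · exact R.ext (fun j _ => rfl) h2 (R.refl k a)
    · exfalso
      have mp : p ∈ Finset.range (k + 1) := Finset.mem_range.2 (by omega)
      have mq : q ∈ (Finset.range (k + 1)).erase p :=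
        Finset.mem_erase.2 ⟨hpq.symm, Finset.mem_range.2 (by omega)⟩
      unfold deg at h
      rw [← Finset.add_sum_erase _ a mp, ← Finset.add_sum_erase _ a mq] at h
      omega

end Pool.Agent.MVO.H77
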