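import Pool.Agent.MVO.StmtsD
import Pool.Agent.Helper92_MVO.LNN

/-!
MVO, row LN2: Lemma N with `Gath2` (proved in `Helper92_MVO/LNN.lean`).
-/

set_option autoImplicit false

namespace Pool.Agent.MVO.H77

open Pool.Agent.Helper14_MV Pool.Agent.Helper2_MV

theorem ln2 (h : WblStmt) : Ln2Stmt := Pool.Agent.Helper92_MVO.ln2 h

end Pool.Agent.MVO.H77
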