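import Pool.Agent.MVO.StmtsM

/-!
MVO, row MRA: the mirror image of a word in blocks.
-/

set_option autoImplicit false

namespace Pool.Agent.MVO.H77

open Pool.Agent.Helper14_MV Pool.Agent.Helper2_MV

/-- words in blocks with given separators -/
def gasm (s : ℕ → ℕ) : (k : ℕ) → (ℕ → List ℕ) → List ℕ
  | 0, B => B 0
  | k + 1, B => gasm s k B ++ s (k + 1) :: B (k + 1)

theorem asm_gasm (k : ℕ) (B : ℕ → List ℕ) : asm k B = gasm (fun j => j + 1) k B := by
  induction k with
  | zero => rfl
  | succ k ih =>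
    show asm k B ++ (k + 2) :: B (k + 1) = gasm (fun j => j + 1) k B ++ (k + 1 + 1) :: B (k + 1)
    rw [ih]

theorem gasm_congr {s s' : ℕ → ℕ} {k : ℕ} {B B' : ℕ → List ℕ}
    (hs : ∀ j, 1 ≤ j → j ≤ k → s j = s' j) (hB : ∀ j ≤ k, B j = B' j) :
    gasm s k B = gasm s' k B' := by
  induction k with
  | zero => exact hB 0 le_rfl
  | succ k ih =>
    show gasm s k B ++ s (k + 1) :: B (k + 1) = gasm s' k B' ++ s' (k + 1) :: B' (k + 1)
    rw [ih (fun j h1 h2 => hs j h1 (by omega)) (fun j hj => hB j (by omega)),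
      hs (k + 1) (by omega) le_rfl, hB (k + 1) le_rfl]

theorem gasm_front (s : ℕ → ℕ) (k : ℕ) (B : ℕ → List ℕ) :
    gasm s (k + 1) B = B 0 ++ s 1 :: gasm (fun j => s (j + 1)) k (fun j => B (j + 1)) := by
  induction k with
  | zero => rfl
  | succ k ih =>
    have h1 : gasm s (k + 2) B = gasm s (k + 1) B ++ s (k + 2) :: B (k + 2) := rfl
    have h2 : gasm (fun j => s (j + 1)) (k + 1) (fun j => B (j + 1))
        = gasm (fun j => s (j + 1)) k (fun j => B (j + 1)) ++ s (k + 2) :: B (k + 2) := rfl
    rw [h1, h2, ih]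
    simp only [List.append_assoc, List.cons_append]

theorem gasm_reverse (s : ℕ → ℕ) (k : ℕ) (B : ℕ → List ℕ) :
    (gasm s k B).reverse = gasm (fun j => s (k + 1 - j)) k (fun j => (B (k - j)).reverse) := by
  induction k with
  | zero => rfl
  | succ k ih =>
    have h1 : gasm s (k + 1) B = gasm s k B ++ s (k + 1) :: B (k + 1) := rfl
    rw [h1, List.reverse_append, List.reverse_cons, List.append_assoc,
      List.singleton_append, ih, gasm_front]
    have h2 : ∀ j, k + 1 + 1 - (j + 1) = k + 1 - j := fun j => by omega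
    have h3 : ∀ j, k + 1 - (j + 1) = k - j := fun j => by omega
    simp only [h2, h3, Nat.sub_zero]

theorem gasm_map (π s : ℕ → ℕ) (k : ℕ) (B : ℕ → List ℕ) :
    (gasm s k B).map π = gasm (fun j => π (s j)) k (fun j => (B j).map π) := by
  induction k with
  | zero => rfl
  | succ k ih =>
    show (gasm s k B ++ s (k + 1) :: B (k + 1)).map π = _
    rw [List.map_append, List.map_cons, ih]
    rfl

/-- the exchange of the separators -/
def rf (k c : ℕ) : ℕ := if 2 ≤ c ∧ c ≤ k + 1 then k + 3 - c else c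

theorem rf_rf (k c : ℕ) : rf k (rf k c) = c := by
  unfold rf
  by_cases h : 2 ≤ c ∧ c ≤ k + 1
  · rw [if_pos h, if_pos (by omega)]
    omega
  · rw [if_neg h, if_neg h]

theorem rev_asm {k : ℕ} {B : ℕ → List ℕ} (hB : BlkOk k B) :
    ((asm k B).reverse).map (rf k) = asm k (rvB k B) := by
  rw [asm_gasm, asm_gasm, gasm_reverse, gasm_map]
  refine gasm_congr (fun j h1 h2 => ?_) (fun j hj => ?_)
  · unfold rf
    rw [if_pos (by omega)]
    omega
  · unfold rvB
    have h1 : ∀ c ∈ (B (k - j)).reverse, rf k c = id c := by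
      intro c hc
      have h2 := hB (k - j) (by omega) c (List.mem_reverse.1 hc)
      unfold rf
      rw [if_neg h2]
      rfl
    rw [List.map_congr_left h1, List.map_id]

theorem sub_map {β : FIC} (π : ℕ → ℕ) {l l' : List ℕ} (h : RR β l l') :
    RR β (l.map π) (l'.map π) := by
  have h1 := h.sub (fun c => [π c])
  have h2 : ∀ m : List ℕ, m.flatMap (fun c => [π c]) = m.map π := by
    intro m
    induction m with
    | nil => rfl
    | cons a m ih =>
      rw [List.flatMap_cons, ih]
      rfl
  rw [h2, h2] at h1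
  exact h1

theorem mra : MraStmt := by
  intro β k B B' hB hB'
  have h0 : RR (MVD.mir β) (asm k B) (asm k B') ↔ RR β (asm k B).reverse (asm k B').reverse :=
    Iff.rfl
  rw [h0, ← rev_asm hB, ← rev_asm hB']
  constructor
  · exact fun h => sub_map (rf k) h
  · intro h
    have h1 := sub_map (rf k) h
    have h2 : ∀ l : List ℕ, (l.map (rf k)).map (rf k) = l := by
      intro l
      rw [List.map_map]
      conv_rhs => rw [← List.map_id l]
      exact List.map_congr_left fun c _ => rf_rf k c
    rw [h2, h2] at h1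
    exact h1

end Pool.Agent.MVO.H77
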