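import Pool.Agent.MVO.StmtsF
import Pool.Agent.MVO.StmtsM

/-!
MVO, row MRF: mirror image of `TightF`.
-/

set_option autoImplicit false

namespace Pool.Agent.MVO.H77

open Pool.Agent.Helper14_MV Pool.Agent.Helper2_MV

theorem rvv_rvv {k : ℕ} (a : ℕ → ℕ) {j : ℕ} (hj : j ≤ k) : rvv k (rvv k a) j = a j := by
  unfold rvv
  congr 1
  omega

theorem deg_rvv (k : ℕ) (a : ℕ → ℕ) : deg k (rvv k a) = deg k a := by
  unfold deg rvv
  exact Finset.sum_range_reflect a (k + 1)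

theorem l1_congr {ρ : FIC} {k : ℕ} {a a' c c' : ℕ → ℕ} (h : ∀ j ≤ k, a j = c j)
    (h' : ∀ j ≤ k, a' j = c' j) : L1 ρ k a a' ↔ L1 ρ k c c' := by
  have e1 : mw k a = mw k c := asm_congr fun j hj => by rw [h j hj]
  have e2 : mw k a' = mw k c' := asm_congr fun j hj => by rw [h' j hj]
  unfold L1
  rw [e1, e2]

theorem bt_congr {ρ : FIC} {k i : ℕ} {a a' c c' : ℕ → ℕ} (h : ∀ j ≤ k, a j = c j)
    (h' : ∀ j ≤ k, a' j = c' j) : Bt ρ k a a' i ↔ Bt ρ k c c' i := by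
  have e1 : ∀ e, w2 k a a' e = w2 k c c' e := fun e => asm_congr fun j hj => by
    rw [h j hj, h' j hj]
  unfold Bt Ex
  simp only [e1]

theorem mrf (mrt : MrtStmt) : MrfStmt := by
  intro β ρ hT k a a' b i h3 hd hL hn hi ha hb h0 hai hbi
  have h1 : ∀ σ : FIC, ∀ x y : ℕ → ℕ, L1 (MVD.mir σ) k (rvv k x) (rvv k y) ↔ L1 σ k x y := by
    intro σ x y
    rw [(mrt σ).1]
    exact l1_congr (fun j hj => rvv_rvv x hj) (fun j hj => rvv_rvv y hj)
  have hki : k - (k - i) = i := by omega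
  have h2 : Bt (MVD.mir ρ) k (rvv k a) (rvv k b) (k - i) ↔ Bt ρ k a b i := by
    rw [(mrt ρ).2.1 k (rvv k a) (rvv k b) (k - i) (by omega), hki]
    exact bt_congr (fun j hj => rvv_rvv a hj) (fun j hj => rvv_rvv b hj)
  rw [← h2]
  refine hT k (rvv k a) (rvv k a') (rvv k b) (k - i) (by rw [deg_rvv]; exact h3)
    (by rw [deg_rvv, deg_rvv]; exact hd) ((h1 ρ a a').2 hL) (fun h => hn ((h1 β a a').1 h))
    (by omega) ?_ ?_ ?_ ?_ ?_
  · obtain ⟨j, hj, hj1⟩ := ha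
    refine ⟨k - j, by omega, by omega, ?_⟩
    unfold rvv
    rw [show k - (k - j) = j by omega]
    exact hj1
  · obtain ⟨j, hj, hj1⟩ := hb
    refine ⟨k - j, by omega, by omega, ?_⟩
    unfold rvv
    rw [show k - (k - j) = j by omega]
    exact hj1
  · intro j hj
    exact h0 (k - j) (by omega) (by omega)
  · unfold rvv
    rw [hki]
    exact hai
  · unfold rvv
    rw [hki]
    exact hbi

end Pool.Agent.MVO.H77
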